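import Pool.Agent.Helper62.GR.Goals

/-!
Project GR (MP_08df5f_al), packet KU: the chain of kernels.
-/

set_option autoImplicit false
set_option linter.unusedTactic false
set_option linter.unusedSimpArgs false

namespace Pool.Agent.Helper54.GR

open Pool.Agent.Helper62.GR Equiv

theorem Ph_of (l : Lt) : Ph (FreeGroup.of l) = genF l := FreeGroup.lift_apply_of

theorem piF_of (l : Lt) : piF (FreeGroup.of l) = lt l := FreeGroup.lift_apply_of

theorem genF_apply (l : Lt) (i : Bool) (x : FreeGroup Lt) :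
    genF l (i, x) = (xor i (isA l), sF i l * x) := rfl

theorem Ph_mul (w : FreeGroup Lt) : ∀ i x y, Ph w (i, x * y) =
    ((Ph w (i, x)).1, (Ph w (i, x)).2 * y) := by
  induction w using FreeGroup.induction_on with
  | C1 =>
    intro i x y
    simp
  | of l =>
    intro i x y
    change Ph (FreeGroup.of l) _ = ((Ph (FreeGroup.of l) _).1, (Ph (FreeGroup.of l) _).2 * y)
    rw [Ph_of, genF_apply, genF_apply, mul_assoc]
  | inv_of l ih =>
    intro i x y
    rw [map_inv]
    change (Ph (FreeGroup.of l))⁻¹ _ = (((Ph (FreeGroup.of l))⁻¹ _).1,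
      ((Ph (FreeGroup.of l))⁻¹ _).2 * y)
    rw [Perm.inv_eq_iff_eq]
    have h := ih ((Ph (FreeGroup.of l))⁻¹ (i, x)).1 ((Ph (FreeGroup.of l))⁻¹ (i, x)).2 y
    have h2 : Ph (FreeGroup.of l) ((Ph (FreeGroup.of l))⁻¹ (i, x)) = (i, x) :=
      Equiv.apply_symm_apply _ _
    change Ph (FreeGroup.of l) _ = ((Ph (FreeGroup.of l) _).1,
      (Ph (FreeGroup.of l) _).2 * y) at h
    rw [Prod.mk.eta, h2] at h
    exact h.symm
  | mul u v hu hv =>
    intro i x y
    rw [map_mul, Perm.mul_apply, Perm.mul_apply, hv, hu]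

theorem Ph_one {w : FreeGroup Lt} {i j : Bool} {v : FreeGroup Lt} (h : Ph w (i, 1) = (j, v))
    (x : FreeGroup Lt) : Ph w (i, x) = (j, v * x) := by
  have h1 := Ph_mul w i 1 x
  rw [one_mul, h] at h1
  exact h1

theorem Ph_inv {w : FreeGroup Lt} {i j : Bool} {v : FreeGroup Lt} (h : Ph w⁻¹ (i, 1) = (j, v)) :
    Ph w (j, 1) = (i, v⁻¹) := by
  have h1 : Ph w (j, v) = (i, 1) := by
    rw [← h, map_inv]
    exact Equiv.apply_symm_apply _ _
  have h2 := Ph_mul w j v v⁻¹
  rw [mul_inv_cancel, h1] at h2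
  simpa using h2

theorem lt_cn (l : Lt) (i : Bool) (x : X) :
    lt l (cn i x) = cn (xor i (isA l)) (piF (sF i l * 1) x) := by
  have h1 : ∀ s t, s % 3 = t % 3 → gs s = gs t := fun s t h => gs_congr h
  cases l <;> cases i <;>
    simp [lt, isA, sF, secl, piF_of, gs_cn_false, gs_cn_true]
  rw [h1 3 0 rfl]

theorem piF_cn (w : FreeGroup Lt) : ∀ i x, piF w (cn i x) =
    cn (Ph w (i, 1)).1 (piF (Ph w (i, 1)).2 x) := by
  induction w using FreeGroup.induction_on with
  | C1 =>
    intro i x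
    simp
  | of l =>
    intro i x
    change piF (FreeGroup.of l) _ = cn (Ph (FreeGroup.of l) _).1 (piF (Ph (FreeGroup.of l) _).2 x)
    rw [Ph_of, piF_of, genF_apply, lt_cn]
  | inv_of l ih =>
    intro i x
    change piF (FreeGroup.of l)⁻¹ _ = cn (Ph (FreeGroup.of l)⁻¹ _).1
      (piF (Ph (FreeGroup.of l)⁻¹ _).2 x)
    change ∀ i x, piF (FreeGroup.of l) _ = cn (Ph (FreeGroup.of l) _).1
      (piF (Ph (FreeGroup.of l) _).2 x) at ih
    rcases hp : Ph (FreeGroup.of l)⁻¹ (i, 1) with ⟨j, v⟩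
    have h1 := Ph_inv hp
    have h2 := ih j (piF v x)
    rw [h1] at h2
    rw [map_inv, Perm.inv_eq_iff_eq, h2]
    simp
  | mul u w hu hw =>
    intro i x
    rcases hp : Ph w (i, 1) with ⟨j, v⟩
    rcases hq : Ph u (j, 1) with ⟨k, y⟩
    have h1 : Ph (u * w) (i, 1) = (k, y * v) := by
      rw [map_mul, Perm.mul_apply, hp, Ph_one hq]
    rw [h1, map_mul, Perm.mul_apply, hw, hp, hu, hq]
    simp

theorem K0n : K0.Normal := Subgroup.normalClosure_normal

theorem kk_sub (k : ℕ) : ∃ S : Subgroup (FreeGroup Lt), S.Normal ∧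
    (S : Set (FreeGroup Lt)) = KK k := by
  induction k with
  | zero => exact ⟨K0, Subgroup.normalClosure_normal, rfl⟩
  | succ k ih =>
    obtain ⟨S, hS, hSk⟩ := ih
    have hm : ∀ w, w ∈ KK (k + 1) ↔ ∀ i, ∃ v ∈ S, Ph w (i, 1) = (i, v) := by
      intro w
      change (∀ i, ∃ v ∈ KK k, Ph w (i, 1) = (i, v)) ↔ _
      rw [← hSk]
      rfl
    refine ⟨{ carrier := KK (k + 1), mul_mem' := ?_, one_mem' := ?_, inv_mem' := ?_ }, ?_, rfl⟩
    · intro u w hu hw
      rw [hm] at hu hw ⊢
      intro i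
      obtain ⟨v, hv, h1⟩ := hu i
      obtain ⟨v', hv', h2⟩ := hw i
      refine ⟨v * v', S.mul_mem hv hv', ?_⟩
      rw [map_mul, Perm.mul_apply, h2, Ph_one h1]
    · rw [hm]
      intro i
      exact ⟨1, S.one_mem, by simp⟩
    · intro w hw
      rw [hm] at hw ⊢
      intro i
      obtain ⟨v, hv, h1⟩ := hw i
      refine ⟨v⁻¹, S.inv_mem hv, ?_⟩
      have h2 : Ph w⁻¹⁻¹ (i, 1) = (i, v) := by rw [inv_inv, h1]
      exact Ph_inv h2
    · constructor
      intro w hw u
      have hw' : w ∈ KK (k + 1) := hw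
      change u * w * u⁻¹ ∈ KK (k + 1)
      rw [hm] at hw' ⊢
      intro i
      rcases hp : Ph u⁻¹ (i, 1) with ⟨j, y⟩
      obtain ⟨v, hv, h1⟩ := hw' j
      refine ⟨y⁻¹ * (v * y), ?_, ?_⟩
      · have h3 := hS.conj_mem v hv y⁻¹
        rwa [inv_inv, mul_assoc] at h3
      · rw [map_mul, map_mul, Perm.mul_apply, Perm.mul_apply, hp, Ph_one h1,
          Ph_one (Ph_inv hp)]

theorem mem_K0 {g : FreeGroup Lt} (h : g ∈ ({FreeGroup.of .a ^ 2, FreeGroup.of .b ^ 2,
    FreeGroup.of .c ^ 2, FreeGroup.of .d ^ 2,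
    FreeGroup.of .b * FreeGroup.of .c * FreeGroup.of .d} : Set (FreeGroup Lt))) : g ∈ K0 :=
  Subgroup.subset_normalClosure h

theorem sq_K0 (l : Lt) : FreeGroup.of l * FreeGroup.of l ∈ K0 := by
  rw [← pow_two]
  cases l <;> exact mem_K0 (by simp)

theorem bcd_K0 : FreeGroup.of Lt.b * FreeGroup.of Lt.c * FreeGroup.of Lt.d ∈ K0 :=
  mem_K0 (by simp)

theorem kk_zero_one : KK 0 ⊆ KK 1 := by
  obtain ⟨S, hS, hSk⟩ := kk_sub 1
  rw [← hSk]
  change (K0 : Set (FreeGroup Lt)) ⊆ S
  apply Subgroup.normalClosure_le_normal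
  rw [hSk]
  have h2 : ∀ l i, sF (xor i (isA l)) l * (sF i l * 1) ∈ K0 := by
    intro l i
    cases l <;> cases i <;> simp only [isA, sF, secl, List.map_nil, List.map_cons, List.prod_nil,
      List.prod_cons, mul_one, Bool.xor_true, Bool.xor_false, Bool.not_false, Bool.not_true] <;>
      first | exact K0.one_mem | exact sq_K0 _
  have h3 : ∀ l, FreeGroup.of l ^ 2 ∈ KK 1 := by
    intro l i
    refine ⟨_, h2 l i, ?_⟩
    rw [pow_two, map_mul, Perm.mul_apply, Ph_of, genF_apply, genF_apply]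
    exact Prod.ext (by cases i <;> cases l <;> rfl) rfl
  rintro g (rfl | rfl | rfl | rfl | rfl)
  · exact h3 _
  · exact h3 _
  · exact h3 _
  · exact h3 _
  · intro i
    rw [map_mul, map_mul, Perm.mul_apply, Perm.mul_apply, Ph_of, Ph_of, Ph_of, genF_apply,
      genF_apply, genF_apply]
    cases i
    · refine ⟨FreeGroup.of .a * FreeGroup.of .a, sq_K0 _, ?_⟩
      simp [sF, secl, isA]
    · refine ⟨FreeGroup.of .c * (FreeGroup.of .d * FreeGroup.of .b), ?_, ?_⟩
      · have h4 := K0n.conj_mem _ bcd_K0 (FreeGroup.of Lt.b)⁻¹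
        have h5 : (FreeGroup.of Lt.b)⁻¹ *
            (FreeGroup.of Lt.b * FreeGroup.of Lt.c * FreeGroup.of Lt.d) *
            (FreeGroup.of Lt.b)⁻¹⁻¹ =
            FreeGroup.of .c * (FreeGroup.of .d * FreeGroup.of .b) := by group
        rw [h5] at h4
        exact h4
      · simp [sF, secl, isA]

theorem kn : G_KN := by
  refine ⟨kk_sub, ?_, ?_⟩
  · intro k
    induction k with
    | zero => exact kk_zero_one
    | succ k ih =>
      intro w hw i
      obtain ⟨v, hv, h⟩ := hw i
      exact ⟨v, ih hv, h⟩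
  · intro k
    induction k with
    | zero =>
      intro w hw
      have h1 : K0 ≤ piF.ker := by
        apply Subgroup.normalClosure_le_normal
        rintro g (rfl | rfl | rfl | rfl | rfl)
        · change piF _ = 1
          rw [map_pow, piF_of, pow_two]
          exact ga_mul_ga
        · change piF _ = 1
          rw [map_pow, piF_of, pow_two]
          exact gs_mul_gs 0
        · change piF _ = 1
          rw [map_pow, piF_of, pow_two]
          exact gs_mul_gs 1
        · change piF _ = 1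
          rw [map_pow, piF_of, pow_two]
          exact gs_mul_gs 2
        · change piF _ = 1
          rw [map_mul, map_mul, piF_of, piF_of, piF_of]
          exact gs_bcd 0
      exact h1 hw
    | succ k ih =>
      intro w hw
      apply perm_ext
      intro i x
      obtain ⟨v, hv, h⟩ := hw i
      rw [piF_cn, h, ih v hv]
      rfl

/-! ### KU -/

/-- the element of a word -/
def fw (w : List Lt) : FreeGroup Lt := (w.map FreeGroup.of).prod

theorem fw_cons (l : Lt) (w : List Lt) : fw (l :: w) = FreeGroup.of l * fw w := by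
  simp [fw]

theorem fw_append (w w' : List Lt) : fw (w ++ w') = fw w * fw w' := by
  simp [fw]

theorem piF_fw (w : List Lt) : piF (fw w) = ev w := by
  induction w with
  | nil => rfl
  | cons l w ih => rw [fw_cons, map_mul, piF_of, ih]; rfl

theorem Ph_fw (i : Bool) (w : List Lt) : Ph (fw w) (i, 1) = (xor i (par w), fw (sec i w)) := by
  induction w with
  | nil =>
    have h : fw [] = 1 := rfl
    rw [h, map_one, Perm.one_apply]
    simp [par, sec, fw]
  | cons l w ih =>
    rw [fw_cons, map_mul, Perm.mul_apply, ih, Ph_of, genF_apply]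
    have h1 : fw (sec i (l :: w)) = sF (xor i (par w)) l * fw (sec i w) := by
      change fw (secl (xor i (par w)) l ++ sec i w) = _
      rw [fw_append]
      rfl
    rw [h1]
    congr 1
    change _ = xor i (xor (isA l) (par w))
    cases i <;> cases (par w) <;> cases (isA l) <;> rfl

instance : K0.Normal := K0n

/-- the quotient map -/
def qm : FreeGroup Lt →* FreeGroup Lt ⧸ K0 := QuotientGroup.mk' K0

theorem qm_eq_one {g : FreeGroup Lt} : qm g = 1 ↔ g ∈ K0 := QuotientGroup.eq_one_iff g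

theorem qm_eq {g h : FreeGroup Lt} : qm g = qm h ↔ g⁻¹ * h ∈ K0 := by
  rw [← qm_eq_one, map_mul, map_inv, inv_mul_eq_one]

theorem q_sq (l : Lt) : qm (FreeGroup.of l) * qm (FreeGroup.of l) = 1 := by
  rw [← map_mul, qm_eq_one]
  exact sq_K0 l

theorem q_bcd : qm (FreeGroup.of .b) * qm (FreeGroup.of .c) * qm (FreeGroup.of .d) = 1 := by
  rw [← map_mul, ← map_mul, qm_eq_one]
  exact bcd_K0

section rel

variable {G : Type} [Group G] {B C D : G}

theorem rel_bc (hd : D * D = 1) (h : B * C * D = 1) : B * C = D := by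
  have h1 := congrArg (· * D) h
  simp only [mul_assoc, hd, mul_one, one_mul] at h1
  exact h1

theorem rel_cb (hb : B * B = 1) (hc : C * C = 1) (hd : D * D = 1) (h : B * C * D = 1) :
    C * B = D := by
  have h1 := rel_bc hd h
  have h2 : (B * C) * (C * B) = 1 := by
    calc (B * C) * (C * B) = B * (C * C) * B := by group
      _ = 1 := by rw [hc, mul_one, hb]
  rw [h1] at h2
  calc C * B = (D * D) * (C * B) := by rw [hd, one_mul]
    _ = D * (D * (C * B)) := by rw [mul_assoc]
    _ = D := by rw [h2, mul_one]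

end rel

theorem qBC : qm (FreeGroup.of .b) * qm (FreeGroup.of .c) = qm (FreeGroup.of .d) :=
  rel_bc (q_sq _) q_bcd

theorem qCB : qm (FreeGroup.of .c) * qm (FreeGroup.of .b) = qm (FreeGroup.of .d) :=
  rel_cb (q_sq _) (q_sq _) (q_sq _) q_bcd

theorem qBD : qm (FreeGroup.of .b) * qm (FreeGroup.of .d) = qm (FreeGroup.of .c) := by
  rw [← qBC, ← mul_assoc, q_sq, one_mul]

theorem qCD : qm (FreeGroup.of .c) * qm (FreeGroup.of .d) = qm (FreeGroup.of .b) := by
  rw [← qCB, ← mul_assoc, q_sq, one_mul]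

theorem qDB : qm (FreeGroup.of .d) * qm (FreeGroup.of .b) = qm (FreeGroup.of .c) := by
  rw [← qCB, mul_assoc, q_sq, mul_one]

theorem qDC : qm (FreeGroup.of .d) * qm (FreeGroup.of .c) = qm (FreeGroup.of .b) := by
  rw [← qBC, mul_assoc, q_sq, mul_one]

theorem q_rc (l : Lt) (w : List Lt) : qm (fw (rc l w)) = qm (FreeGroup.of l) * qm (fw w) := by
  have h0 : ∀ l w, qm (fw (l :: w)) = qm (FreeGroup.of l) * qm (fw w) := by
    intro l w
    rw [fw_cons, map_mul]
  cases w with
  | nil => cases l <;> exact h0 _ _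
  | cons l' w =>
    cases l <;> cases l' <;> simp only [rc, h0] <;>
      rw [← mul_assoc] <;>
      first
        | rw [q_sq, one_mul]
        | rw [qBC]
        | rw [qCB]
        | rw [qBD]
        | rw [qCD]
        | rw [qDB]
        | rw [qDC]

theorem q_red (w : List Lt) : qm (fw (red w)) = qm (fw w) := by
  induction w with
  | nil => rfl
  | cons l w ih =>
    change qm (fw (rc l (red w))) = _
    rw [q_rc, ih, fw_cons, map_mul]

theorem q_surj (g : FreeGroup Lt) : ∃ w, qm g = qm (fw w) := by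
  induction g using FreeGroup.induction_on with
  | C1 => exact ⟨[], rfl⟩
  | of l =>
    refine ⟨[l], ?_⟩
    rw [fw_cons]
    have : fw [] = 1 := rfl
    rw [this, mul_one]
  | inv_of l _ =>
    refine ⟨[l], ?_⟩
    rw [fw_cons]
    have : fw [] = 1 := rfl
    rw [this, mul_one, map_inv]
    exact inv_eq_of_mul_eq_one_left (q_sq l)
  | mul u v hu hv =>
    obtain ⟨w, hw⟩ := hu
    obtain ⟨w', hw'⟩ := hv
    exact ⟨w ++ w', by rw [fw_append, map_mul, map_mul, hw, hw']⟩

theorem kk_mono (h1 : G_KN) {k l : ℕ} (h : k ≤ l) : KK k ⊆ KK l := by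
  induction h with
  | refl => exact subset_rfl
  | step _ ih => exact ih.trans (h1.2.1 _)

theorem kk_q (h1 : G_KN) {k : ℕ} {g h : FreeGroup Lt} (hgh : qm g = qm h) (hg : g ∈ KK k) :
    h ∈ KK k := by
  obtain ⟨S, hS, hSk⟩ := h1.1 k
  have h2 : g⁻¹ * h ∈ KK 0 := qm_eq.1 hgh
  have h3 := kk_mono h1 (Nat.zero_le k) h2
  rw [← hSk] at h3 hg ⊢
  have h4 := S.mul_mem hg h3
  rwa [mul_inv_cancel_left] at h4

theorem lt_ne_one (l : Lt) : lt l ≠ 1 := by
  cases l with
  | a =>
    intro h
    apply ga_xi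
    have h1 : ga = 1 := h
    rw [h1]
    rfl
  | b => exact gs_ne_one 0
  | c => exact gs_ne_one 1
  | d => exact gs_ne_one 2

theorem ku_alt (h1 : G_KN) (h2 : G_WO) : ∀ n, ∀ w : List Lt, w.length ≤ n → alt w = true →
    ev w = 1 → ∃ k, fw w ∈ KK k := by
  obtain ⟨-, hsec, hred, haltred, hlenred, -, hlen, -, -, -, -⟩ := h2
  intro n
  induction n with
  | zero =>
    intro w hw _ _
    have : w = [] := List.length_eq_zero_iff.1 (Nat.le_zero.1 hw)
    rw [this]
    exact ⟨0, K0.one_mem⟩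
  | succ n ih =>
    intro w hw hwa hw1
    rcases Nat.lt_or_ge w.length 2 with h | h
    · cases w with
      | nil => exact ⟨0, K0.one_mem⟩
      | cons l w' =>
        have h3 : w' = [] := by
          rw [List.length_cons] at h
          exact List.length_eq_zero_iff.1 (by omega)
        rw [h3] at hw1
        exfalso
        apply lt_ne_one l
        have h4 : lt l * 1 = 1 := hw1
        rwa [mul_one] at h4
    · have h3 : ∀ i x, xor i (par w) = i ∧ ev (sec i w) x = x := by
        intro i x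
        have h4 := hsec w i x
        rw [hw1] at h4
        have h5 := cn_inj (h4.symm)
        exact ⟨h5.1, h5.2⟩
      have h4 : ∀ i, ev (red (sec i w)) = 1 := by
        intro i
        rw [hred]
        ext1 x
        exact (h3 i x).2
      have h5 : ∀ i, ∃ k, fw (red (sec i w)) ∈ KK k := by
        intro i
        apply ih _ _ (haltred _) (h4 i)
        have h6 := hlenred (sec i w)
        have h7 := hlen w hwa i
        omega
      obtain ⟨k0, hk0⟩ := h5 false
      obtain ⟨k1, hk1⟩ := h5 true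
      refine ⟨max k0 k1 + 1, ?_⟩
      intro i
      refine ⟨fw (sec i w), ?_, ?_⟩
      · apply kk_q h1 (q_red (sec i w))
        cases i
        · exact kk_mono h1 (le_max_left _ _) hk0
        · exact kk_mono h1 (le_max_right _ _) hk1
      · rw [Ph_fw, (h3 i xi).1]

theorem ku (h1 : G_KN) (h2 : G_WO) : G_KU := by
  intro g hg
  obtain ⟨w, hw⟩ := q_surj g
  rw [← q_red] at hw
  have h3 : ev (red w) = 1 := by
    have h4 : g⁻¹ * fw (red w) ∈ KK 0 := qm_eq.1 hw
    have h5 := h1.2.2 0 _ h4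
    rw [map_mul, map_inv, hg, inv_one, one_mul, piF_fw] at h5
    exact h5
  obtain ⟨k, hk⟩ := ku_alt h1 h2 _ (red w) le_rfl (h2.2.2.2.1 w) h3
  exact ⟨k, kk_q h1 hw.symm hk⟩

end Pool.Agent.Helper54.GR
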